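import Pool.Agent.H44.KG.SCL
import Pool.Agent.H15.KG.BOD
import Pool.Agent.H27.KG.KRE
import Pool.Agent.H27.KG.LEX
import Pool.Agent.H33.KG.BAS
import Pool.Agent.H49.KG.OS0

/-!
# Project KF (the full conjecture): from the Poincare inequality with a universal constant to the
frozen statement
-/

set_option autoImplicit false
set_option linter.unusedSectionVars false

open MeasureTheory Set Filter Topology
open scoped ContDiff ENNReal NNReal

namespace Pool.Agent.H20.KF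

open Pool.Agent.H84 Pool.Agent.H84.Sym Pool.Agent.H84.Sym.P2x Pool.Agent.H19.KL
open Pool.Agent.H73.KG

/-- the Poincare constant of uniformly log-concave measures with covariance at most one is bounded
by a universal constant -/
def KLSStmt : Prop := ∃ C : ℝ, 1 ≤ C ∧ ∀ (E : Type) [NormedAddCommGroup E]
    [InnerProductSpace ℝ E] [FiniteDimensional ℝ E] [MeasurableSpace E] [BorelSpace E]
    (U : E → ℝ) (t : ℝ), PP U t → CovLe U 1 → GPC (mu U) C

/-- Lipschitz functions, covariance at most one -/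
theorem lip_one {C : ℝ} (hC : 1 ≤ C) (E : Type) [NormedAddCommGroup E]
    [InnerProductSpace ℝ E] [FiniteDimensional ℝ E] [MeasurableSpace E] [BorelSpace E]
    (h : ∀ (U : E → ℝ) (t : ℝ), PP U t → CovLe U 1 → GPC (mu U) C)
    (U : E → ℝ) (t : ℝ) (hU : PP U t) (hc : CovLe U 1) (f : E → ℝ) (hf : ContDiff ℝ 1 f)
    (hf1 : ∀ x, ‖fderiv ℝ f x‖ ≤ 1) : cv U f f ≤ C := by
  have hB := bas_thm E
  have hG : GC f := os0_gc hf hf1
  have hG2 : Gr (fun x => ‖fderiv ℝ f x‖) := Gr.of_bdd (A := 1) fun x => by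
    rw [abs_of_nonneg (norm_nonneg _)]; exact hf1 x
  have h1 := hB.2.2.1 U t hU f hf hG.2 hG2 C (h U t hU hc)
  have h2 : ∫ x, ‖fderiv ℝ f x‖ ^ 2 ∂(mu U) ≤ 1 := by
    obtain ⟨⟨C', hP⟩, hp⟩ := hU
    have h3 : ∫ x, ‖fderiv ℝ f x‖ ^ 2 ∂(mu U) ≤ ∫ _, (1:ℝ) ∂(mu U) := by
      refine integral_mono_of_nonneg (ae_of_all _ fun x => by positivity) (integrable_const _)
        (ae_of_all _ fun x => ?_)
      have h4 := hf1 x
      have h5 := norm_nonneg (fderiv ℝ f x)
      simp only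
      nlinarith
    simpa using h3
  refine h1.trans ?_
  nlinarith

/-- the inequality for Lipschitz functions on bodies -/
theorem body {C : ℝ} (hC : 1 ≤ C) (E : Type) [NormedAddCommGroup E]
    [InnerProductSpace ℝ E] [FiniteDimensional ℝ E] [MeasurableSpace E] [BorelSpace E]
    (h : ∀ (U : E → ℝ) (t : ℝ), PP U t → CovLe U 1 → GPC (mu U) C)
    {K : Set E} {R s : ℝ} (hK : CB K R) (hs : 0 < s)
    (h2 : ∀ v : E, ∫ x in K, (inner ℝ v x) ^ 2 ≤ s ^ 2 * ‖v‖ ^ 2 * volume.real K) :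
    PL K (s * Real.sqrt C) :=
  B15_core (lex_thm E) hK
    (fun U t a M hU ha hc hM f hf hfM =>
      SCL_one (fun U t hU hc f hf hf1 => lip_one hC E h U t hU hc f hf hf1)
        U t a M hU ha hc hM f hf hfM) hs (by linarith) h2

/-- the hyperplane inequality for all symmetric bodies -/
theorem hyper (hK : KLSStmt) :
    ∃ C : ℝ, 0 < C ∧ ∀ (n : ℕ) (Ω : Set (EuclideanSpace ℝ (Fin (n + 1)))), IsOpen Ω →
      Convex ℝ Ω → Bornology.IsBounded Ω → (∀ x ∈ Ω, -x ∈ Ω) → Ω.Nonempty →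
      ∃ a : EuclideanSpace ℝ (Fin (n + 1)), ‖a‖ = 1 ∧
        ∀ S : Set (EuclideanSpace ℝ (Fin (n + 1))), MeasurableSet S → S ⊆ Ω →
          volume S = volume Ω / 2 →
          μH[(n:ℝ)] {x | x ∈ Ω ∧ inner ℝ a x = (0:ℝ)} ≤
            ENNReal.ofReal C * μH[(n:ℝ)] (Ω ∩ frontier S) := by
  obtain ⟨C, hC, hB⟩ := hK
  refine ⟨7300 * Real.sqrt C, by positivity, ?_⟩
  intro n Ω ho hc hb hs hne
  have hfr : Module.finrank ℝ (EuclideanSpace ℝ (Fin (n + 1))) = n + 1 := by simp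
  obtain ⟨a, ha, s, hs0, hvar, H⟩ :=
    kre_thm (EuclideanSpace ℝ (Fin (n + 1))) n hfr Ω ho hc hb hs hne
  refine ⟨a, ha, ?_⟩
  obtain ⟨R, hR⟩ := hb.subset_closedBall 0
  have hCB : CB Ω R := ⟨hc, ho.measurableSet, hR, (ho.measure_pos volume hne).ne'⟩
  have hPL := body hC (EuclideanSpace ℝ (Fin (n + 1))) (fun U t => hB _ U t) hCB hs0 hvar
  intro S hS hSΩ hSv
  exact H (Real.sqrt C) (by positivity)
    (by rw [mul_comm]; exact hPL) S hS hSΩ hSv

/-- the statement of the problem (text of the frozen statement) -/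
theorem frozen_of (hK : KLSStmt) :
    ∃ C : ℝ≥0, ∀ (n : ℕ) (Ω E : Set (EuclideanSpace ℝ (Fin n))),
      IsOpen Ω → Convex ℝ Ω → Bornology.IsBounded Ω →
      (∀ x ∈ Ω, -x ∈ Ω) → 0 < volume Ω →
      MeasurableSet E → E ⊆ Ω → volume E = volume Ω / 2 →
      (∀ F : Set (EuclideanSpace ℝ (Fin n)), MeasurableSet F → F ⊆ Ω →
          volume F = volume Ω / 2 →
          μH[(n : ℝ) - 1] (Ω ∩ frontier E) ≤ μH[(n : ℝ) - 1] (Ω ∩ frontier F)) →
      ∃ a : EuclideanSpace ℝ (Fin n), a ≠ 0 ∧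
        μH[(n : ℝ) - 1] {x | x ∈ Ω ∧ inner ℝ a x = (0 : ℝ)}
          ≤ (C : ℝ≥0∞) * μH[(n : ℝ) - 1] (Ω ∩ frontier E) := by
  obtain ⟨C, hC, H⟩ := hyper hK
  refine ⟨Real.toNNReal C, ?_⟩
  intro n Ω E ho hc hb hs hv hE hEΩ hEv _
  have hne : Ω.Nonempty := by
    rw [Set.nonempty_iff_ne_empty]
    rintro rfl
    simp at hv
  rcases n with _ | n
  · -- dimension zero: there is no subset of half volume
    exfalso
    have hfin : volume Ω ≠ ⊤ := (hb.measure_lt_top).ne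
    have hsub : Subsingleton (EuclideanSpace ℝ (Fin 0)) := inferInstance
    rcases Set.eq_empty_or_nonempty E with h0 | h0
    · rw [h0, measure_empty] at hEv
      have h1 : volume Ω / 2 ≠ 0 := by
        simp only [ne_eq, ENNReal.div_eq_zero_iff, not_or]
        exact ⟨hv.ne', by norm_num⟩
      exact h1 hEv.symm
    · have h1 : E = Ω := by
        apply Set.Subset.antisymm hEΩ
        intro x _
        obtain ⟨y, hy⟩ := h0
        rwa [Subsingleton.elim x y]
      rw [h1] at hEv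
      have h2 : volume Ω / 2 < volume Ω := ENNReal.half_lt_self hv.ne' hfin
      exact absurd hEv h2.ne'
  · obtain ⟨a, ha, h⟩ := H n Ω ho hc hb hs hne
    refine ⟨a, by rintro rfl; simp at ha, ?_⟩
    have h1 := h E hE hEΩ hEv
    have h2 : (((n + 1 : ℕ) : ℝ) - 1) = (n : ℝ) := by push_cast; ring
    rw [h2]
    exact h1

end Pool.Agent.H20.KF
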