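import Pool.Agent.H59.KA.All
import Pool.Agent.H35.KB.All
import Pool.Agent.H89.KD.All
import Pool.Agent.H20.KF.Tail

/-!
# The full theorem: the Poincare constant of log-concave measures with covariance at most one is
bounded by a universal constant
-/

set_option autoImplicit false

open MeasureTheory

namespace Pool.Agent.H20.KF

/-- the bounds of all orders (Parts A and B) -/
theorem kb_all : Pool.Agent.H89.KD.KBStmt :=
  Pool.Agent.H35.KB.All.aKBF Pool.Agent.H59.KA.aQKF

/-- the Poincare inequality with a universal constant -/
theorem kls_all : KLSStmt := Pool.Agent.H89.KD.All.kls kb_all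

end Pool.Agent.H20.KF
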