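import Pool.Agent.H20.KF.Tail

/-!
# The perimeter of De Giorgi, and the gradient of a mollified indicator function
-/

set_option autoImplicit false
set_option linter.unusedSectionVars false
set_option linter.unusedVariables false

open MeasureTheory Measure Set Filter Topology
open scoped ENNReal NNReal

namespace Pool.Agent.H20.KF.Perim

open Pool.H71.Bdry

/-- divergence of a vector field -/
noncomputable def dvg {n : ℕ} (φ : EuclideanSpace ℝ (Fin (n + 1)) → EuclideanSpace ℝ (Fin (n + 1)))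
    (x : EuclideanSpace ℝ (Fin (n + 1))) : ℝ :=
  ∑ i, (fderiv ℝ φ x (EuclideanSpace.single i 1)) i

/-- the test fields: of class `C^1`, compact support in `Ω`, norm at most one -/
def Fld {n : ℕ} (Ω : Set (EuclideanSpace ℝ (Fin (n + 1))))
    (φ : EuclideanSpace ℝ (Fin (n + 1)) → EuclideanSpace ℝ (Fin (n + 1))) : Prop :=
  ContDiff ℝ 1 φ ∧ HasCompactSupport φ ∧ tsupport φ ⊆ Ω ∧ ∀ x, ‖φ x‖ ≤ 1

/-- the perimeter of `S` relative to `Ω` (total variation in `Ω` of the gradient of the indicator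
function of `S`) -/
noncomputable def per {n : ℕ} (Ω S : Set (EuclideanSpace ℝ (Fin (n + 1)))) : ℝ≥0∞ :=
  ⨆ (φ : EuclideanSpace ℝ (Fin (n + 1)) → EuclideanSpace ℝ (Fin (n + 1))) (_ : Fld Ω φ),
    ENNReal.ofReal (∫ x in S, dvg φ x)

variable {n : ℕ}

/-- the gradient as a vector -/
noncomputable def grd (u : EuclideanSpace ℝ (Fin (n + 1)) → ℝ)
    (x : EuclideanSpace ℝ (Fin (n + 1))) : EuclideanSpace ℝ (Fin (n + 1)) :=
  (InnerProductSpace.toDual ℝ _).symm (fderiv ℝ u x)

theorem norm_grd (u : EuclideanSpace ℝ (Fin (n + 1)) → ℝ) (x : EuclideanSpace ℝ (Fin (n + 1))) :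
    ‖grd u x‖ = ‖fderiv ℝ u x‖ := by
  rw [grd, LinearIsometryEquiv.norm_map]

theorem fderiv_grd (u : EuclideanSpace ℝ (Fin (n + 1)) → ℝ)
    (x v : EuclideanSpace ℝ (Fin (n + 1))) :
    fderiv ℝ u x v = inner ℝ (grd u x) v := by
  rw [grd, InnerProductSpace.toDual_symm_apply]

/-- minus the direction of the gradient -/
noncomputable def dir (u : EuclideanSpace ℝ (Fin (n + 1)) → ℝ)
    (x : EuclideanSpace ℝ (Fin (n + 1))) : EuclideanSpace ℝ (Fin (n + 1)) :=
  -(‖grd u x‖⁻¹ • grd u x)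

theorem norm_dir_le (u : EuclideanSpace ℝ (Fin (n + 1)) → ℝ)
    (x : EuclideanSpace ℝ (Fin (n + 1))) : ‖dir u x‖ ≤ 1 := by
  rw [dir, norm_neg, norm_smul, norm_inv, norm_norm]
  exact inv_mul_le_one

theorem fderiv_dir (u : EuclideanSpace ℝ (Fin (n + 1)) → ℝ)
    (x : EuclideanSpace ℝ (Fin (n + 1))) : fderiv ℝ u x (dir u x) = -‖fderiv ℝ u x‖ := by
  rw [fderiv_grd, dir, inner_neg_right, inner_smul_right, real_inner_self_eq_norm_sq, ← norm_grd]
  by_cases h : ‖grd u x‖ = 0
  · simp [h]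
  · field_simp

theorem meas_dir {u : EuclideanSpace ℝ (Fin (n + 1)) → ℝ} (hu : ContDiff ℝ 1 u) :
    Measurable (dir u) := by
  have h1 : Continuous (grd u) :=
    (InnerProductSpace.toDual ℝ _).symm.continuous.comp (hu.continuous_fderiv (by simp))
  have h2 : Measurable (grd u) := h1.measurable
  exact ((h2.norm.inv).smul h2).neg

/-- the test field built from a mollifier and a measurable direction field -/
noncomputable def fld (K : Set (EuclideanSpace ℝ (Fin (n + 1))))
    (η : EuclideanSpace ℝ (Fin (n + 1)) → ℝ)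
    (ψ : EuclideanSpace ℝ (Fin (n + 1)) → EuclideanSpace ℝ (Fin (n + 1)))
    (z : EuclideanSpace ℝ (Fin (n + 1))) : EuclideanSpace ℝ (Fin (n + 1)) :=
  ∫ x in K, η (x - z) • ψ x

theorem fld_eq {K : Set (EuclideanSpace ℝ (Fin (n + 1)))} (hK : MeasurableSet K)
    (η : EuclideanSpace ℝ (Fin (n + 1)) → ℝ)
    (ψ : EuclideanSpace ℝ (Fin (n + 1)) → EuclideanSpace ℝ (Fin (n + 1))) :
    fld K η ψ = (convolution (K.indicator ψ) (fun y => η (-y))
      (ContinuousLinearMap.lsmul ℝ ℝ).flip volume) := by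
  funext z
  rw [fld, convolution, ← integral_indicator hK]
  congr 1
  ext1 x
  by_cases hx : x ∈ K <;> simp [hx]

theorem locint {K : Set (EuclideanSpace ℝ (Fin (n + 1)))} (hK : MeasurableSet K)
    (hKb : Bornology.IsBounded K)
    {ψ : EuclideanSpace ℝ (Fin (n + 1)) → EuclideanSpace ℝ (Fin (n + 1))} (hψ : Measurable ψ)
    (h1 : ∀ x, ‖ψ x‖ ≤ 1) : IntegrableOn ψ K :=
  Measure.integrableOn_of_bounded (M := 1) hKb.measure_lt_top.ne hψ.aestronglyMeasurable
    (ae_of_all _ h1)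

theorem fld_contDiff {K : Set (EuclideanSpace ℝ (Fin (n + 1)))} (hK : MeasurableSet K)
    (hKb : Bornology.IsBounded K) {η : EuclideanSpace ℝ (Fin (n + 1)) → ℝ} (hη : ContDiff ℝ 1 η)
    (hc : HasCompactSupport η)
    {ψ : EuclideanSpace ℝ (Fin (n + 1)) → EuclideanSpace ℝ (Fin (n + 1))} (hψ : Measurable ψ)
    (h1 : ∀ x, ‖ψ x‖ ≤ 1) : ContDiff ℝ 1 (fld K η ψ) := by
  rw [fld_eq hK]
  have h2 : HasCompactSupport (fun y => η (-y)) := hc.comp_homeomorph (Homeomorph.neg _)
  have h3 : LocallyIntegrable (K.indicator ψ) :=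
    ((locint hK hKb hψ h1).integrable_indicator hK).locallyIntegrable
  exact h2.contDiff_convolution_right _ h3 (hη.comp contDiff_neg)

theorem fld_fderiv {K : Set (EuclideanSpace ℝ (Fin (n + 1)))} (hK : MeasurableSet K)
    (hKb : Bornology.IsBounded K) {η : EuclideanSpace ℝ (Fin (n + 1)) → ℝ} (hη : ContDiff ℝ 1 η)
    (hc : HasCompactSupport η)
    {ψ : EuclideanSpace ℝ (Fin (n + 1)) → EuclideanSpace ℝ (Fin (n + 1))} (hψ : Measurable ψ)
    (h1 : ∀ x, ‖ψ x‖ ≤ 1) (z v : EuclideanSpace ℝ (Fin (n + 1))) :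
    fderiv ℝ (fld K η ψ) z v = ∫ x in K, (-(fderiv ℝ η (x - z) v)) • ψ x := by
  rw [fld_eq hK]
  have h2 : HasCompactSupport (fun y => η (-y)) := hc.comp_homeomorph (Homeomorph.neg _)
  have h3 : LocallyIntegrable (K.indicator ψ) :=
    ((locint hK hKb hψ h1).integrable_indicator hK).locallyIntegrable
  have h4 : ContDiff ℝ 1 (fun y => η (-y)) := hη.comp contDiff_neg
  rw [(h2.hasFDerivAt_convolution_right (ContinuousLinearMap.lsmul ℝ ℝ).flip h3 h4 z).fderiv,
    convolution_precompR_apply _ h3 (h2.fderiv ℝ) (h4.continuous_fderiv (by simp)), convolution,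
    ← integral_indicator hK]
  congr 1
  ext1 x
  have h5 : fderiv ℝ (fun y => η (-y)) (z - x) v = -(fderiv ℝ η (x - z) v) := by
    have h6 : HasFDerivAt (fun y : EuclideanSpace ℝ (Fin (n + 1)) => -y)
        (-(ContinuousLinearMap.id ℝ _)) (z - x) := (hasFDerivAt_id _).neg
    have h7 : HasFDerivAt η (fderiv ℝ η (x - z)) (-(z - x)) := by
      rw [neg_sub]
      exact ((hη.differentiable (by simp)) _).hasFDerivAt
    have h8 := (h7.comp (z - x) h6).fderiv
    have h9 : (η ∘ fun y : EuclideanSpace ℝ (Fin (n + 1)) => -y) = fun y => η (-y) := rfl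
    rw [h9] at h8
    rw [h8]
    simp
  by_cases hx : x ∈ K
  · simp only [indicator_of_mem hx, ContinuousLinearMap.flip_apply, ContinuousLinearMap.lsmul_apply]
    rw [h5]
  · simp [hx]

/-- a test field which is admissible for the perimeter -/
theorem fld_Fld {Ω K : Set (EuclideanSpace ℝ (Fin (n + 1)))} (hK : MeasurableSet K)
    (hKb : Bornology.IsBounded K) {ρ : ℝ} (hρ : 0 < ρ)
    (hball : ∀ x ∈ K, Metric.closedBall x ρ ⊆ Ω)
    {η : EuclideanSpace ℝ (Fin (n + 1)) → ℝ} (hη : ContDiff ℝ 1 η) (h0 : ∀ x, 0 ≤ η x)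
    (hs : tsupport η ⊆ Metric.closedBall 0 (ρ / 2)) (hI : ∫ x, η x = 1)
    {ψ : EuclideanSpace ℝ (Fin (n + 1)) → EuclideanSpace ℝ (Fin (n + 1))} (hψ : Measurable ψ)
    (h1 : ∀ x, ‖ψ x‖ ≤ 1) : Fld Ω (fld K η ψ) := by
  have hc : HasCompactSupport η :=
    (isCompact_closedBall (0 : EuclideanSpace ℝ (Fin (n + 1))) (ρ / 2)).of_isClosed_subset
      (isClosed_tsupport η) hs
  have hηi : Integrable η := hη.continuous.integrable_of_hasCompactSupport hc
  have hts : tsupport (fld K η ψ) ⊆ Metric.cthickening (ρ / 2) K := by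
    refine closure_minimal ?_ Metric.isClosed_cthickening
    intro z hz
    by_contra hcon
    apply hz
    rw [fld]
    refine setIntegral_eq_zero_of_forall_eq_zero fun x hx => ?_
    have h2 : η (x - z) = 0 := by
      by_contra h3
      have h4 := hs (subset_tsupport η h3)
      rw [mem_closedBall_zero_iff] at h4
      apply hcon
      refine Metric.mem_cthickening_of_dist_le z x (ρ / 2) K hx ?_
      rw [dist_comm, dist_eq_norm]
      exact h4
    rw [h2, zero_smul]
  refine ⟨fld_contDiff hK hKb hη hc hψ h1, ?_, ?_, ?_⟩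
  · have h2 : IsCompact (Metric.cthickening (ρ / 2) K) :=
      Metric.isCompact_of_isClosed_isBounded Metric.isClosed_cthickening hKb.cthickening
    exact h2.of_isClosed_subset (isClosed_tsupport _) hts
  · intro z hz
    have h2 := Metric.cthickening_subset_thickening' hρ (by linarith : ρ / 2 < ρ) K (hts hz)
    rw [Metric.mem_thickening_iff] at h2
    obtain ⟨x, hx, hd⟩ := h2
    exact hball x hx (Metric.mem_closedBall.2 hd.le)
  · intro z
    have h2 : Integrable (fun x => η (x - z)) := hηi.comp_sub_right z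
    calc ‖fld K η ψ z‖ ≤ ∫ x in K, η (x - z) := by
          refine norm_integral_le_of_norm_le h2.integrableOn (ae_of_all _ fun x => ?_)
          rw [norm_smul, Real.norm_of_nonneg (h0 _)]
          have := h1 x
          have := h0 (x - z)
          nlinarith
      _ ≤ ∫ x, η (x - z) := setIntegral_le_integral h2 (ae_of_all _ fun x => h0 _)
      _ = 1 := by rw [integral_sub_right_eq_self η z, hI]

theorem dvg_fld {K : Set (EuclideanSpace ℝ (Fin (n + 1)))} (hK : MeasurableSet K)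
    (hKb : Bornology.IsBounded K) {η : EuclideanSpace ℝ (Fin (n + 1)) → ℝ} (hη : ContDiff ℝ 1 η)
    (hc : HasCompactSupport η)
    {ψ : EuclideanSpace ℝ (Fin (n + 1)) → EuclideanSpace ℝ (Fin (n + 1))} (hψ : Measurable ψ)
    (h1 : ∀ x, ‖ψ x‖ ≤ 1) (z : EuclideanSpace ℝ (Fin (n + 1))) :
    dvg (fld K η ψ) z = -∫ x in K, fderiv ℝ η (x - z) (ψ x) := by
  obtain ⟨B, hB⟩ : ∃ B, ∀ x, ‖fderiv ℝ η x‖ ≤ B :=
    (hc.fderiv ℝ).exists_bound_of_continuous (hη.continuous_fderiv (by simp))
  have hcf : Continuous (fderiv ℝ η) := hη.continuous_fderiv (by simp)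
  have hint : ∀ v : EuclideanSpace ℝ (Fin (n + 1)), ‖v‖ ≤ 1 →
      IntegrableOn (fun x => (-(fderiv ℝ η (x - z) v)) • ψ x) K := by
    intro v hv
    refine Measure.integrableOn_of_bounded (M := B) hKb.measure_lt_top.ne ?_
      (ae_of_all _ fun x => ?_)
    · have h2 : Continuous fun x => -(fderiv ℝ η (x - z) v) := by fun_prop
      exact (h2.measurable.smul hψ).aestronglyMeasurable
    · rw [norm_smul, norm_neg]
      have h3 := (fderiv ℝ η (x - z)).le_opNorm v
      have h4 := hB (x - z)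
      have h5 := h1 x
      have h6 : 0 ≤ ‖fderiv ℝ η (x - z)‖ := norm_nonneg _
      calc ‖fderiv ℝ η (x - z) v‖ * ‖ψ x‖ ≤ (‖fderiv ℝ η (x - z)‖ * ‖v‖) * 1 := by gcongr
        _ ≤ B := by nlinarith [norm_nonneg v]
  have hsingle : ∀ i : Fin (n + 1), ‖EuclideanSpace.single i (1:ℝ)‖ ≤ 1 := fun i => by simp
  rw [dvg]
  have h2 : ∀ i : Fin (n + 1), (fderiv ℝ (fld K η ψ) z (EuclideanSpace.single i 1)) i
      = ∫ x in K, -(fderiv ℝ η (x - z) (EuclideanSpace.single i 1) * (ψ x) i) := by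
    intro i
    rw [fld_fderiv hK hKb hη hc hψ h1]
    have h3 := ContinuousLinearMap.integral_comp_comm
      (EuclideanSpace.proj i : EuclideanSpace ℝ (Fin (n + 1)) →L[ℝ] ℝ)
      (hint (EuclideanSpace.single i 1) (hsingle i))
    rw [PiLp.proj_apply] at h3
    rw [← h3]
    congr 1
    ext1 x
    simp
  simp only [h2]
  rw [← integral_finsetSum, ← integral_neg]
  · congr 1
    ext1 x
    rw [Finset.sum_neg_distrib]
    congr 1
    have h4 : ψ x = ∑ i, (ψ x) i • EuclideanSpace.single i (1:ℝ) := by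
      have := (EuclideanSpace.basisFun (Fin (n + 1)) ℝ).sum_repr (ψ x)
      simpa using this.symm
    conv_rhs => rw [h4, _root_.map_sum]
    refine Finset.sum_congr rfl fun i _ => ?_
    rw [map_smul, smul_eq_mul, mul_comm]
  · intro i _
    have h3 := ContinuousLinearMap.integrable_comp
      (EuclideanSpace.proj i : EuclideanSpace ℝ (Fin (n + 1)) →L[ℝ] ℝ)
      (hint (EuclideanSpace.single i 1) (hsingle i))
    refine h3.congr (ae_of_all _ fun x => ?_)
    simp

/-- **the gradient of a mollified indicator function is bounded by the perimeter** -/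
theorem grad_le {Ω K S : Set (EuclideanSpace ℝ (Fin (n + 1)))} (hK : MeasurableSet K)
    (hKb : Bornology.IsBounded K) (hS : MeasurableSet S) (hSb : Bornology.IsBounded S)
    {ρ : ℝ} (hρ : 0 < ρ)
    (hball : ∀ x ∈ K, Metric.closedBall x ρ ⊆ Ω) (hfin : per Ω S ≠ ⊤)
    {η : EuclideanSpace ℝ (Fin (n + 1)) → ℝ} (hη : ContDiff ℝ 1 η) (h0 : ∀ x, 0 ≤ η x)
    (hs : tsupport η ⊆ Metric.closedBall 0 (ρ / 2)) (hI : ∫ x, η x = 1) :
    ∫ x in K, ‖fderiv ℝ (moll S η) x‖ ≤ (per Ω S).toReal := by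
  have hc : HasCompactSupport η :=
    (isCompact_closedBall (0 : EuclideanSpace ℝ (Fin (n + 1))) (ρ / 2)).of_isClosed_subset
      (isClosed_tsupport η) hs
  obtain ⟨B, hB⟩ : ∃ B, ∀ x, ‖fderiv ℝ η x‖ ≤ B :=
    (hc.fderiv ℝ).exists_bound_of_continuous (hη.continuous_fderiv (by simp))
  have hcf : Continuous (fderiv ℝ η) := hη.continuous_fderiv (by simp)
  set u := moll S η with hu
  have huC : ContDiff ℝ 1 u := moll_contDiff S hS η hη hc
  set ψ := dir u with hψ
  have hψm : Measurable ψ := meas_dir huC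
  have hψ1 : ∀ x, ‖ψ x‖ ≤ 1 := norm_dir_le u
  have : IsFiniteMeasure (volume.restrict K) := ⟨by simpa using hKb.measure_lt_top⟩
  have : IsFiniteMeasure (volume.restrict S) := ⟨by simpa using hSb.measure_lt_top⟩
  have hF := fld_Fld hK hKb hρ hball hη h0 hs hI hψm hψ1
  have h1 : ENNReal.ofReal (∫ x in S, dvg (fld K η ψ) x) ≤ per Ω S :=
    le_iSup₂ (f := fun (φ : EuclideanSpace ℝ (Fin (n + 1)) → EuclideanSpace ℝ (Fin (n + 1)))
      (_ : Fld Ω φ) => ENNReal.ofReal (∫ x in S, dvg φ x)) _ hF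
  have h2 : ∫ x in S, dvg (fld K η ψ) x ≤ (per Ω S).toReal :=
    (ENNReal.ofReal_le_iff_le_toReal hfin).1 h1
  refine le_of_eq_of_le ?_ h2
  have hint : Integrable (Function.uncurry fun (x z : EuclideanSpace ℝ (Fin (n + 1))) =>
      fderiv ℝ η (x - z) (ψ x)) ((volume.restrict K).prod (volume.restrict S)) := by
    refine Integrable.of_bound (C := B) ?_ (ae_of_all _ fun p => ?_)
    · have h3 : Measurable fun p : EuclideanSpace ℝ (Fin (n + 1)) ×
          EuclideanSpace ℝ (Fin (n + 1)) => inner ℝ (grd η (p.1 - p.2)) (ψ p.1) := by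
        have h4 : Continuous (grd η) := (InnerProductSpace.toDual ℝ _).symm.continuous.comp hcf
        have h5 : Measurable fun p : EuclideanSpace ℝ (Fin (n + 1)) ×
          EuclideanSpace ℝ (Fin (n + 1)) => grd η (p.1 - p.2) :=
          (h4.comp (by fun_prop)).measurable
        exact h5.inner (hψm.comp measurable_fst)
      refine h3.aestronglyMeasurable.congr (ae_of_all _ fun p => ?_)
      simp only [Function.uncurry]
      rw [fderiv_grd]
    · simp only [Function.uncurry]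
      have h3 := (fderiv ℝ η (p.1 - p.2)).le_opNorm (ψ p.1)
      have h4 := hB (p.1 - p.2)
      have h5 := hψ1 p.1
      have h6 : 0 ≤ ‖fderiv ℝ η (p.1 - p.2)‖ := norm_nonneg _
      nlinarith [norm_nonneg (ψ p.1)]
  have hswap := integral_integral_swap hint
  calc ∫ x in K, ‖fderiv ℝ u x‖ = ∫ x in K, -(∫ z in S, fderiv ℝ η (x - z) (ψ x)) := by
        congr 1
        ext1 x
        rw [← moll_fderiv S hS η hη hc, ← hu, hψ, fderiv_dir, neg_neg]
    _ = -∫ x in K, ∫ z in S, fderiv ℝ η (x - z) (ψ x) := integral_neg _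
    _ = -∫ z in S, ∫ x in K, fderiv ℝ η (x - z) (ψ x) := by rw [hswap]
    _ = ∫ z in S, dvg (fld K η ψ) z := by
        rw [← integral_neg]
        congr 1
        ext1 z
        rw [dvg_fld hK hKb hη hc hψm hψ1]

end Pool.Agent.H20.KF.Perim
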