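import Pool.Agent.H20.KF.Perim
import Pool.Agent.H20.KF.Full

/-!
# The hyperplane inequality for the perimeter of De Giorgi
-/

set_option autoImplicit false
set_option linter.unusedSectionVars false
set_option linter.unusedVariables false

open MeasureTheory Measure Set Filter Topology
open scoped ENNReal NNReal Pointwise

namespace Pool.Agent.H20.KF.Perim

open Pool.Agent.H84 Pool.H71.Bdry Pool.Agent.H73.KG

variable {n : ℕ}

/-- The isoperimetric inequality on a slightly shrunk body. -/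
theorem mach_aux {Ω K K' S : Set (EuclideanSpace ℝ (Fin (n + 1)))} {R Λ ρ P : ℝ}
    (hK : CB K R) (hK' : CB K' R) (hKK : K' ⊆ K) (hρ : 0 < ρ)
    (hball : ∀ x ∈ K, Metric.closedBall x ρ ⊆ Ω) (hS : MeasurableSet S)
    (hSb : Bornology.IsBounded S) (hP : per Ω S = ENNReal.ofReal P) (hP0 : 0 ≤ P)
    (hΛ : 0 < Λ) (hPL : PL K' Λ) (b : ℝ)
    (h1 : b ≤ volume.real (K' ∩ S)) (h2 : b ≤ volume.real (K' \ S)) :
    2 * b ≤ 16 * Λ * P + volume.real K' / 4 := by
  refine le_of_forall_pos_le_add fun ε hε => ?_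
  obtain ⟨η, hη2, hη0, hηs, hη1, hηε⟩ := exists_bump hK hS (ρ / 2) (by positivity) (ε := ε / 4) (by positivity)
  have hηc : HasCompactSupport η :=
    (isCompact_closedBall (0 : EuclideanSpace ℝ (Fin (n + 1))) (ρ / 2)).of_isClosed_subset (isClosed_tsupport η) hηs
  have hηi : Integrable η := hη2.continuous.integrable_of_hasCompactSupport hηc
  have hη1' : ContDiff ℝ 1 η := hη2.of_le (by norm_num)
  set u := moll S η with hu
  have huC : ContDiff ℝ 1 u := moll_contDiff S hS η hη1' hηc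
  obtain ⟨L, hL⟩ := moll_fderiv_lip hS hSb hη2 hηc
  have hu0 := moll_nonneg S hη0
  have hu1 := moll_le_one S hη0 hηi hη1
  set f : EuclideanSpace ℝ (Fin (n + 1)) → ℝ := fun x => 2 * u x - 1 with hf
  have hfC : ContDiff ℝ 1 f := (contDiff_const.mul huC).sub contDiff_const
  have hfd : ∀ x, fderiv ℝ f x = (2:ℝ) • fderiv ℝ u x := by
    intro x
    have hd : DifferentiableAt ℝ u x := (huC.differentiable (by simp)).differentiableAt
    have := ((hd.hasFDerivAt.const_mul (2:ℝ)).sub_const (1:ℝ)).fderiv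
    simpa using this
  have hfL : ∀ x z, ‖fderiv ℝ f x - fderiv ℝ f z‖ ≤ (2 * L) * ‖x - z‖ := by
    intro x z
    rw [hfd, hfd, ← smul_sub, norm_smul, mul_assoc]
    have := hL.dist_le_mul x z
    rw [dist_eq_norm, dist_eq_norm] at this
    rw [Real.norm_of_nonneg (by norm_num : (0:ℝ) ≤ 2)]
    gcongr
  have hf1 : ∀ x ∈ K, |f x| ≤ 1 := by
    intro x _
    rw [hf, abs_le]
    have := hu0 x
    have := hu1 x
    constructor <;> simp only <;> linarith
  obtain ⟨g, hgC, hgd, hgi⟩ := smoothing hK hfC hfL hf1 (t := 16 * Λ ^ 2) (by positivity)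
    (ε := ε / 4) (by positivity)
  have hsq : Real.sqrt (16 * Λ ^ 2) = 4 * Λ := by
    rw [show 16 * Λ ^ 2 = (4 * Λ) ^ 2 by ring]
    exact Real.sqrt_sq (by positivity)
  rw [hsq] at hgd hgi
  have : IsFiniteMeasure (volume.restrict K) := ⟨by simpa using hK.lt_top⟩
  have : IsFiniteMeasure (volume.restrict K') := ⟨by simpa using hK'.lt_top⟩
  -- the gradient integral
  have hgrad : ∫ x in K, ‖fderiv ℝ f x‖ ≤ 2 * P := by
    have h3 : ∫ x in K, ‖fderiv ℝ f x‖ = 2 * ∫ x in K, ‖fderiv ℝ u x‖ := by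
      rw [← integral_const_mul]
      congr 1
      ext x
      rw [hfd, norm_smul, Real.norm_of_nonneg (by norm_num : (0:ℝ) ≤ 2)]
    rw [h3]
    refine mul_le_mul_of_nonneg_left ?_ (by norm_num)
    have h4 := grad_le (Ω := Ω) hK.meas (Metric.isBounded_closedBall.subset hK.sub) hS hSb hρ hball
      (by rw [hP]; exact ENNReal.ofReal_ne_top) hη1' hη0 hηs hη1
    rw [hP, ENNReal.toReal_ofReal hP0] at h4
    exact h4
  -- integrability
  have hfi : IntegrableOn f K' := by
    obtain ⟨B, hB⟩ := hK'.bdd_of_cont hfC.continuous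
    refine Measure.integrableOn_of_bounded (M := B) hK'.lt_top.ne
      hfC.continuous.aestronglyMeasurable ?_
    exact (ae_restrict_iff' hK'.meas).2 (Eventually.of_forall fun x hx => hB x hx)
  have hgi' : IntegrableOn g K' := by
    obtain ⟨B, hB⟩ := hK'.bdd_of_cont hgC.continuous
    refine Measure.integrableOn_of_bounded (M := B) hK'.lt_top.ne
      hgC.continuous.aestronglyMeasurable ?_
    exact (ae_restrict_iff' hK'.meas).2 (Eventually.of_forall fun x hx => hB x hx)
  have hfiK : IntegrableOn f K := by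
    obtain ⟨B, hB⟩ := hK.bdd_of_cont hfC.continuous
    refine Measure.integrableOn_of_bounded (M := B) hK.lt_top.ne
      hfC.continuous.aestronglyMeasurable ?_
    exact (ae_restrict_iff' hK.meas).2 (Eventually.of_forall fun x hx => hB x hx)
  have hgiK : IntegrableOn g K := by
    obtain ⟨B, hB⟩ := hK.bdd_of_cont hgC.continuous
    refine Measure.integrableOn_of_bounded (M := B) hK.lt_top.ne
      hgC.continuous.aestronglyMeasurable ?_
    exact (ae_restrict_iff' hK.meas).2 (Eventually.of_forall fun x hx => hB x hx)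
  have huiK : IntegrableOn u K := by
    obtain ⟨B, hB⟩ := hK.bdd_of_cont huC.continuous
    refine Measure.integrableOn_of_bounded (M := B) hK.lt_top.ne
      huC.continuous.aestronglyMeasurable ?_
    exact (ae_restrict_iff' hK.meas).2 (Eventually.of_forall fun x hx => hB x hx)
  set σ : EuclideanSpace ℝ (Fin (n + 1)) → ℝ := S.indicator (fun _ => (1:ℝ)) with hσ
  have hσi : ∀ T : Set (EuclideanSpace ℝ (Fin (n + 1))), volume T ≠ ⊤ → IntegrableOn σ T := by
    intro T hT
    have : IsFiniteMeasure (volume.restrict T) := ⟨by simpa using hT.lt_top⟩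
    exact (integrableOn_const hT).indicator hS
  obtain ⟨c, hc⟩ := hPL g hgC (1 / (4 * Λ)) (by positivity) (fun x hx => hgd x (hKK hx))
  have hcc : Λ * (1 / (4 * Λ)) * volume.real K' = volume.real K' / 4 := by
    field_simp
  rw [hcc] at hc
  have hlow := sign_far hK' hS c b h1 h2
  -- triangle inequality
  have hI1 : IntegrableOn (fun x => |(2 * σ x - 1) - f x|) K' :=
    ((((hσi K' hK'.lt_top.ne).const_mul 2).sub (integrableOn_const hK'.lt_top.ne)).sub hfi).abs
  have hI2 : IntegrableOn (fun x => |f x - g x|) K' := (hfi.sub hgi').abs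
  have hI3 : IntegrableOn (fun x => |g x - c|) K' :=
    (hgi'.sub (integrableOn_const hK'.lt_top.ne)).abs
  have hI12 : IntegrableOn (fun x => |(2 * σ x - 1) - f x| + |f x - g x|) K' := hI1.add hI2
  have htri : ∫ x in K', |(2 * σ x - 1) - c|
      ≤ (∫ x in K', |(2 * σ x - 1) - f x|) + (∫ x in K', |f x - g x|) + ∫ x in K', |g x - c| := by
    rw [← integral_add hI1 hI2, ← integral_add hI12 hI3]
    refine integral_mono ?_ (hI12.add hI3) ?_
    · exact ((((hσi K' hK'.lt_top.ne).const_mul 2).sub (integrableOn_const hK'.lt_top.ne)).sub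
        (integrableOn_const hK'.lt_top.ne)).abs
    · intro x
      have e1 := abs_add_three ((2 * σ x - 1) - f x) (f x - g x) (g x - c)
      rw [show (2 * σ x - 1) - f x + (f x - g x) + (g x - c) = (2 * σ x - 1) - c by ring] at e1
      exact e1
  have hsub1 : ∫ x in K', |(2 * σ x - 1) - f x| ≤ ε / 2 := by
    have hJ : IntegrableOn (fun x => |u x - σ x|) K := (huiK.sub (hσi K hK.lt_top.ne)).abs
    calc ∫ x in K', |(2 * σ x - 1) - f x| = ∫ x in K', 2 * |u x - σ x| := by
          congr 1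
          ext x
          rw [hf, ← abs_neg]
          simp only
          rw [show -(2 * σ x - 1 - (2 * u x - 1)) = 2 * (u x - σ x) by ring, abs_mul,
            abs_of_pos (by norm_num : (0:ℝ) < 2)]
      _ ≤ ∫ x in K, 2 * |u x - σ x| := by
          refine setIntegral_mono_set (hJ.const_mul 2) ?_ hKK.eventuallyLE
          exact Eventually.of_forall fun x => by positivity
      _ = 2 * ∫ x in K, |u x - σ x| := integral_const_mul _ _
      _ ≤ 2 * (ε / 4) := by gcongr
      _ = ε / 2 := by ring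
  have hsub2 : ∫ x in K', |f x - g x| ≤ 16 * Λ * P + ε / 4 := by
    calc ∫ x in K', |f x - g x| ≤ ∫ x in K, |f x - g x| := by
          refine setIntegral_mono_set (hfiK.sub hgiK).abs ?_ hKK.eventuallyLE
          exact Eventually.of_forall fun x => by positivity
      _ ≤ 2 * (4 * Λ) * (∫ x in K, ‖fderiv ℝ f x‖) + ε / 4 := hgi
      _ ≤ 2 * (4 * Λ) * (2 * P) + ε / 4 := by gcongr
      _ = _ := by ring
  linarith

/-- **The machine** (coordinates).  If a convex subset `Ω'` of `Ω` with at least three quarters of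
the volume has Poincare constant `Λ²`, then every `S` with half the volume has a boundary in `Ω`
of measure at least `|Ω| / (64 Λ)`. -/
theorem mach_fin {Ω Ω' S : Set (EuclideanSpace ℝ (Fin (n + 1)))} (hΩo : IsOpen Ω) (hΩc : Convex ℝ Ω)
    (hΩb : Bornology.IsBounded Ω) (h0 : (0:EuclideanSpace ℝ (Fin (n + 1))) ∈ Ω) (hsub : Ω' ⊆ Ω) (hΩ'c : Convex ℝ Ω')
    (hΩ'm : MeasurableSet Ω') {Λ : ℝ} (hΛ : 0 < Λ)
    (hvol : 3 / 4 * volume.real Ω ≤ volume.real Ω') (hPL : PL Ω' Λ)
    (hS : MeasurableSet S) (hSΩ : S ⊆ Ω) (hSv : volume.real S = volume.real Ω / 2) :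
    volume Ω ≤ ENNReal.ofReal (64 * Λ) * per Ω S := by
  by_cases hPt : per Ω S = ⊤
  · rw [hPt, ENNReal.mul_top (by simp [hΛ])]
    exact le_top
  set P := (per Ω S).toReal with hPdef
  have hP : per Ω S = ENNReal.ofReal P := (ENNReal.ofReal_toReal hPt).symm
  have hP0 : 0 ≤ P := ENNReal.toReal_nonneg
  have hΩv0 : volume Ω ≠ 0 := (hΩo.measure_pos volume ⟨0, h0⟩).ne'
  have hΩvt : volume Ω ≠ ⊤ := hΩb.measure_lt_top.ne
  set V := volume.real Ω with hV
  have hV0 : 0 < V := ENNReal.toReal_pos hΩv0 hΩvt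
  obtain ⟨R, hR⟩ := hΩb.subset_closedBall 0
  have hRpos : 0 ≤ R := by
    have := hR h0
    simpa using this
  have hΩ'v0 : volume Ω' ≠ 0 := by
    intro h
    have h1 : volume.real Ω' = 0 := by simp [Measure.real, h]
    rw [h1] at hvol
    linarith
  set N := Module.finrank ℝ (EuclideanSpace ℝ (Fin (n + 1))) with hN
  -- estimate for each shrinking factor
  have key : ∀ r : ℝ, 0 < r → r < 1 →
      2 * ((3 / 4 * r ^ N - 1 / 2) * V) ≤ 16 * Λ * P + V / 4 := by
    intro r hr0 hr1
    obtain ⟨ρ, hρ, hball⟩ := shrink_ball hΩo hΩc h0 hr0 hr1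
    have hK : CB (r • Ω) R := by
      refine ⟨hΩc.smul r, (hΩo.smul₀ hr0.ne').measurableSet, ?_, ?_⟩
      · rintro _ ⟨ω, hω, rfl⟩
        have := hR hω
        rw [mem_closedBall_zero_iff] at this ⊢
        simp only [norm_smul, Real.norm_of_nonneg hr0.le]
        nlinarith [norm_nonneg ω]
      · rw [Measure.addHaar_smul]
        simp only [ne_eq, mul_eq_zero, not_or]
        refine ⟨?_, hΩv0⟩
        simp only [ENNReal.ofReal_eq_zero, not_le]
        positivity
    have hK' : CB (r • Ω') R := by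
      refine ⟨hΩ'c.smul r, hΩ'm.const_smul_of_ne_zero hr0.ne', ?_, ?_⟩
      · exact (smul_set_mono hsub).trans hK.sub
      · rw [Measure.addHaar_smul]
        simp only [ne_eq, mul_eq_zero, not_or]
        refine ⟨?_, hΩ'v0⟩
        simp only [ENNReal.ofReal_eq_zero, not_le]
        positivity
    have hPL' : PL (r • Ω') Λ := KRE_mono (KRE_smul hPL hr0) (by nlinarith)
    have hrΩ : r • Ω' ⊆ Ω := by
      refine (smul_set_mono hsub).trans fun x hx => hball x hx ?_
      exact Metric.mem_closedBall_self hρ.le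
    have hK'v : volume.real (r • Ω') = r ^ N * volume.real Ω' := volume_real_smul Ω' hr0
    have hK'lt : volume.real (r • Ω') ≤ V := measureReal_mono hrΩ hΩvt
    have hsum : volume.real (r • Ω') = volume.real (r • Ω' ∩ S) + volume.real ((r • Ω') \ S) :=
      (measureReal_inter_add_sdiff hS (hK'.lt_top.ne)).symm
    have hlow : 3 / 4 * r ^ N * V ≤ volume.real (r • Ω') := by
      rw [hK'v]
      have : 0 ≤ r ^ N := by positivity
      nlinarith
    have hA : volume.real (r • Ω' ∩ S) ≤ V / 2 := by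
      rw [← hSv]
      exact measureReal_mono inter_subset_right (measure_ne_top_of_subset hSΩ hΩvt)
    have hB : volume.real ((r • Ω') \ S) ≤ V / 2 := by
      have h1 : volume.real ((r • Ω') \ S) ≤ volume.real (Ω \ S) :=
        measureReal_mono (sdiff_subset_sdiff_left hrΩ) (measure_ne_top_of_subset sdiff_subset hΩvt)
      have h2 : volume.real (Ω \ S) = V - volume.real S := by
        rw [measureReal_sdiff hSΩ hS]
      rw [h2, hSv] at h1
      linarith
    have := mach_aux hK hK' (smul_set_mono hsub) hρ hball hS (hΩb.subset hSΩ) hP hP0 hΛ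
      hPL' ((3 / 4 * r ^ N - 1 / 2) * V) (by nlinarith) (by nlinarith)
    linarith
  -- let r tend to 1
  have hlim : Tendsto (fun r : ℝ => 2 * ((3 / 4 * r ^ N - 1 / 2) * V)) (𝓝[<] 1)
      (𝓝 (2 * ((3 / 4 * 1 ^ N - 1 / 2) * V))) := by
    have : Continuous fun r : ℝ => 2 * ((3 / 4 * r ^ N - 1 / 2) * V) := by fun_prop
    exact (this.tendsto 1).mono_left nhdsWithin_le_nhds
  have hev : ∀ᶠ r : ℝ in 𝓝[<] 1, 2 * ((3 / 4 * r ^ N - 1 / 2) * V) ≤ 16 * Λ * P + V / 4 := by
    filter_upwards [Ioo_mem_nhdsLT (show (0:ℝ) < 1 by norm_num)] with r hr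
    exact key r hr.1 hr.2
  have hfin := le_of_tendsto hlim hev
  rw [one_pow] at hfin
  have hfinal : V ≤ 64 * Λ * P := by linarith
  rw [hP, ← ENNReal.ofReal_mul (by positivity), ← ENNReal.ofReal_toReal hΩvt]
  exact ENNReal.ofReal_le_ofReal hfinal

/-- **Reduction.**  For a symmetric open bounded convex set `Ω` there are a unit vector `a` and
`s > 0` (the largest standard deviation of a linear functional) such that a lower bound
`volume Ω / (64 c s)` for a quantity `X` gives the hyperplane inequality for `X` with the constant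
`7300 c` and the hyperplane orthogonal to `a`. -/
theorem reduce {Ω : Set (EuclideanSpace ℝ (Fin (n + 1)))} (hΩo : IsOpen Ω)
    (hΩc : Convex ℝ Ω) (hΩb : Bornology.IsBounded Ω) (hsymm : ∀ x ∈ Ω, -x ∈ Ω)
    (hne : Ω.Nonempty) :
    ∃ a : EuclideanSpace ℝ (Fin (n + 1)), ‖a‖ = 1 ∧ ∃ s : ℝ, 0 < s ∧
      (∀ v : EuclideanSpace ℝ (Fin (n + 1)),
        ∫ x in Ω, (inner ℝ v x) ^ 2 ≤ s ^ 2 * ‖v‖ ^ 2 * volume.real Ω) ∧
      ∀ (c : ℝ) (X : ℝ≥0∞), 0 < c → volume Ω ≤ ENNReal.ofReal (64 * (c * s)) * X →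
          μHE[n] {x | x ∈ Ω ∧ inner ℝ a x = (0:ℝ)} ≤ ENNReal.ofReal (7300 * c) * X := by
  have h0 : (0:EuclideanSpace ℝ (Fin (n + 1))) ∈ Ω := by
    obtain ⟨x, hx⟩ := hne
    have := hΩc hx (hsymm x hx) (a := 1/2) (b := 1/2) (by norm_num) (by norm_num) (by norm_num)
    simpa using this
  have hn : Module.finrank ℝ (EuclideanSpace ℝ (Fin (n + 1))) = n + 1 := by simp
  have : Nontrivial (EuclideanSpace ℝ (Fin (n + 1))) :=
    Module.nontrivial_of_finrank_pos (R := ℝ) (by omega)
  obtain ⟨a, ha, s, hs, hsa, hsv⟩ := exists_max_dir hΩo h0 hΩb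
  refine ⟨a, ha, s, hs, hsv, ?_⟩
  intro c X hc h1
  have hΩv0 : volume Ω ≠ 0 := (hΩo.measure_pos volume ⟨0, h0⟩).ne'
  have hΩvt : volume Ω ≠ ⊤ := hΩb.measure_lt_top.ne
  set V := volume.real Ω with hV
  have hV0 : 0 < V := ENNReal.toReal_pos hΩv0 hΩvt
  have hVe : volume Ω = ENNReal.ofReal V := (ENNReal.ofReal_toReal hΩvt).symm
  have h2 := section_bound_gen hn hΩo hΩc hΩb hsymm a ha
  have hI : ∫⁻ x in Ω, ENNReal.ofReal ((inner ℝ a x) ^ 2) = ENNReal.ofReal (s ^ 2 * V) := by
    rw [← hsa, ofReal_integral_eq_lintegral_ofReal _ (Eventually.of_forall fun x => by positivity)]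
    obtain ⟨R, hR⟩ := hΩb.subset_closedBall 0
    have hxR : ∀ x ∈ Ω, ‖x‖ ≤ R := fun x hx => by simpa using hR hx
    refine Measure.integrableOn_of_bounded (M := (‖a‖ * R) ^ 2) hΩvt (by fun_prop) ?_
    refine (ae_restrict_iff' hΩo.measurableSet).2 (Eventually.of_forall fun x hx => ?_)
    rw [norm_pow]
    refine pow_le_pow_left₀ (norm_nonneg _) ?_ 2
    exact (norm_inner_le_norm a x).trans (by gcongr; exact hxR x hx)
  rw [hI, hVe, ← ENNReal.ofReal_pow hV0.le, ← ENNReal.ofReal_mul (by positivity)] at h2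
  set M := μHE[n] {x | x ∈ Ω ∧ inner ℝ a x = (0:ℝ)} with hM
  have hMt : M ≠ ⊤ := by
    intro h
    rw [h, ENNReal.top_pow (by norm_num), ENNReal.top_mul] at h2
    · exact absurd (top_le_iff.1 h2) ENNReal.ofReal_ne_top
    · simp only [ne_eq, ENNReal.ofReal_eq_zero, not_le]
      positivity
  have hMr : M = ENNReal.ofReal M.toReal := (ENNReal.ofReal_toReal hMt).symm
  have hMle : M ≤ ENNReal.ofReal (64 * Real.sqrt Real.pi * V / s) := by
    rw [hMr, ← ENNReal.ofReal_pow ENNReal.toReal_nonneg, ← ENNReal.ofReal_mul (by positivity),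
      ENNReal.ofReal_le_ofReal_iff (by positivity)] at h2
    rw [hMr]
    refine ENNReal.ofReal_le_ofReal ?_
    refine abs_le_of_sq_le_sq' ?_ (by positivity) |>.2
    rw [div_pow, mul_pow, mul_pow, Real.sq_sqrt Real.pi_pos.le, le_div_iff₀ (by positivity)]
    have h3 : V * (M.toReal ^ 2 * s ^ 2) ≤ V * (64 ^ 2 * Real.pi * V ^ 2) := by nlinarith
    exact le_of_mul_le_mul_left h3 hV0
  have hpi : 64 * Real.sqrt Real.pi * 64 ≤ 7300 := by
    have h3 : Real.sqrt Real.pi ≤ 1.78 := by
      rw [Real.sqrt_le_left (by norm_num)]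
      have := Real.pi_lt_d4
      norm_num
      linarith
    linarith
  have h4 : M ≤ ENNReal.ofReal (7300 * c) * X := by
    calc M ≤ ENNReal.ofReal (64 * Real.sqrt Real.pi * V / s) := hMle
      _ = ENNReal.ofReal (64 * Real.sqrt Real.pi / s) * volume Ω := by
          rw [hVe, ← ENNReal.ofReal_mul (by positivity)]
          congr 1
          ring
      _ ≤ ENNReal.ofReal (64 * Real.sqrt Real.pi / s) *
          (ENNReal.ofReal (64 * (c * s)) * X) := by gcongr
      _ = ENNReal.ofReal (64 * Real.sqrt Real.pi * 64 * c) * X := by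
          rw [← mul_assoc, ← ENNReal.ofReal_mul (by positivity)]
          congr 2
          field_simp
      _ ≤ _ := by gcongr
  exact h4

/-- **the hyperplane inequality for all symmetric bodies and all half-volume sets**, in terms of
the perimeter and in terms of the topological boundary -/
theorem hyper_per : ∃ C : ℝ, 0 < C ∧ ∀ (n : ℕ) (Ω : Set (EuclideanSpace ℝ (Fin (n + 1)))), IsOpen Ω →
      Convex ℝ Ω → Bornology.IsBounded Ω → (∀ x ∈ Ω, -x ∈ Ω) → Ω.Nonempty →
      ∃ a : EuclideanSpace ℝ (Fin (n + 1)), ‖a‖ = 1 ∧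
        ∀ S : Set (EuclideanSpace ℝ (Fin (n + 1))), MeasurableSet S → S ⊆ Ω →
          volume S = volume Ω / 2 →
          μHE[n] {x | x ∈ Ω ∧ inner ℝ a x = (0:ℝ)} ≤ ENNReal.ofReal C * per Ω S ∧
          μHE[n] {x | x ∈ Ω ∧ inner ℝ a x = (0:ℝ)} ≤
            ENNReal.ofReal C * μHE[n] (Ω ∩ frontier S) := by
  obtain ⟨C, hC, hB⟩ := kls_all
  refine ⟨7300 * Real.sqrt C, by positivity, ?_⟩
  intro n Ω ho hc hb hs hne
  obtain ⟨a, ha, s, hs0, hvar, H⟩ := reduce ho hc hb hs hne
  refine ⟨a, ha, ?_⟩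
  have h0 : (0:EuclideanSpace ℝ (Fin (n + 1))) ∈ Ω := by
    obtain ⟨x, hx⟩ := hne
    have := hc hx (hs x hx) (a := 1/2) (b := 1/2) (by norm_num) (by norm_num) (by norm_num)
    simpa using this
  obtain ⟨R, hR⟩ := hb.subset_closedBall 0
  have hCB : CB Ω R := ⟨hc, ho.measurableSet, hR, (ho.measure_pos volume hne).ne'⟩
  have hPL := body hC (EuclideanSpace ℝ (Fin (n + 1))) (fun U t => hB _ U t) hCB hs0 hvar
  rw [mul_comm s] at hPL
  have hC0 : 0 < Real.sqrt C := by positivity
  have hV : 0 ≤ volume.real Ω := measureReal_nonneg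
  intro S hS hSΩ hSv
  have hSv' : volume.real S = volume.real Ω / 2 := by
    rw [Measure.real, hSv, ENNReal.toReal_div, Measure.real]
    norm_num
  exact ⟨H _ _ hC0 (mach_fin ho hc hb h0 subset_rfl hc ho.measurableSet
      (Λ := Real.sqrt C * s) (by positivity) (by linarith) hPL hS hSΩ hSv'),
    H _ _ hC0 (KRE_fin ho hc hb h0 subset_rfl hc ho.measurableSet
      (Λ := Real.sqrt C * s) (by positivity) (by linarith) hPL hS hSΩ hSv')⟩

end Pool.Agent.H20.KF.Perim
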